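import Pool.Agent.Helper74.DR.St

/-! # DR MODULE GA: gadget A, soundness -/

set_option autoImplicit false

namespace Pool.Agent.Helper18.DR

open Pool.Agent.Helper74.DR

/-- The stacks which can be reached by the first phase. -/
def Ph {T : Type} (x : T) (σ : List (Option T)) : List T → List (Option T) → Prop
  | _ :: z₂ :: Z, τ => ∃ τ', Ph x σ Z τ' ∧ (τ = τ' ∨ τ = none :: some z₂ :: τ')
  | _, τ => τ = σ ∨ τ = none :: some x :: σ

theorem joker {T : Type} (y : T) (σ τ : List (Option T)) (h : Tr [none] (some y :: σ) τ) :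
    τ = σ ∨ τ = none :: some y :: σ := by
  rw [tr_jk] at h
  rcases h with h | ⟨z, σ', h1, h2⟩
  · exact Or.inr h.symm
  · simp only [List.cons.injEq] at h1
    obtain ⟨rfl, rfl⟩ := h1
    exact Or.inl h2.symm

theorem phase1 {T : Type} (x : T) (σ : List (Option T)) : ∀ (Z : List T) (τ : List (Option T)),
    Tr (some (x, true) :: fw Z) σ τ → Ph x σ Z τ
  | [], τ, h => joker x σ τ h
  | [_], τ, h => joker x σ τ h
  | z₁ :: z₂ :: Z, τ, h => by
    have e : some (x, true) :: fw (z₁ :: z₂ :: Z) =
        (some (x, true) :: fw Z) ++ [some (z₂, true), none] := rfl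
    rw [e, tr_append] at h
    obtain ⟨τ', h1, h2⟩ := h
    exact ⟨τ', phase1 x σ Z τ' h1, joker z₂ τ' τ h2⟩

theorem phase2 {T : Type} (x : T) (s : List T) : ∀ (Z : List T), Odd Z.length →
    ∀ (C : List T) (τ ρ : List (Option T)), Odd C.length → Z.length ≤ C.length →
    Ph x (s.map some) Z τ → Tr (C.map fun z => some (z, false)) τ ρ →
    ρ = (x :: s).map some ∨
      ∃ j s', 2 * j < C.length ∧ s = C.drop (2 * j) ++ s' ∧ ρ = s'.map some
  | [], hZ, _, _, _, _, _, _, _ => by simp at hZ
  | [_], _, C, τ, ρ, hC, _, hP, hT => by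
    have hC0 : 0 < C.length := hC.pos
    rcases hP with rfl | rfl
    · obtain ⟨s', h1, h2⟩ := (tr_cls C s ρ).1 hT
      exact Or.inr ⟨0, s', by omega, by simpa using h1, h2⟩
    · rcases C with _ | ⟨c₁, C₁⟩
      · simp at hC0
      · rw [List.map_cons, tr_cl] at hT
        obtain ⟨y, σ', h1, -, h2⟩ := hT
        simp only [List.cons.injEq] at h1
        obtain ⟨rfl, rfl⟩ := h1
        obtain ⟨s', h3, h4⟩ := (tr_cls C₁ (x :: s) ρ).1 h2
        rcases C₁ with _ | ⟨c₂, C₂⟩
        · left
          rw [h4]
          simp only [List.nil_append] at h3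
          rw [← h3]
        · right
          simp only [List.cons_append, List.cons.injEq] at h3
          refine ⟨1, s', ?_, ?_, h4⟩
          · simp only [List.length_cons] at hC ⊢
            obtain ⟨k, hk⟩ := hC
            omega
          · simpa using h3.2
  | _ :: z₂ :: Z, hZ, C, τ, ρ, hC, hle, hP, hT => by
    have hZ' : Odd Z.length := by
      simp only [List.length_cons] at hZ
      obtain ⟨k, hk⟩ := hZ
      exact ⟨k - 1, by omega⟩
    obtain ⟨τ', hP', h⟩ := hP
    simp only [List.length_cons] at hle
    rcases h with rfl | rfl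
    · exact phase2 x s Z hZ' C τ ρ hC (by omega) hP' hT
    · rcases C with _ | ⟨c₁, _ | ⟨c₂, C'⟩⟩
      · simp at hle
      · simp at hle
      · rw [List.map_cons, tr_cl] at hT
        obtain ⟨y, σ', h1, -, h2⟩ := hT
        simp only [List.cons.injEq] at h1
        obtain ⟨rfl, rfl⟩ := h1
        rw [List.map_cons, tr_cl] at h2
        obtain ⟨y, σ', h1, -, h3⟩ := h2
        simp only [List.cons.injEq] at h1
        obtain ⟨rfl, rfl⟩ := h1
        have hC' : Odd C'.length := by
          simp only [List.length_cons] at hC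
          obtain ⟨k, hk⟩ := hC
          have := hZ'.pos
          simp only [List.length_cons] at hle
          exact ⟨k - 1, by omega⟩
        simp only [List.length_cons] at hle
        rcases phase2 x s Z hZ' C' τ' ρ hC' (by omega) hP' h3 with h4 | ⟨j, s', h4, h5, h6⟩
        · exact Or.inl h4
        · right
          refine ⟨j + 1, s', ?_, ?_, h6⟩
          · simp only [List.length_cons]
            omega
          · have e : 2 * (j + 1) = 2 * j + 1 + 1 := by ring
            rw [e, List.drop_succ_cons, List.drop_succ_cons]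
            exact h5

theorem hGA : StGA := by
  intro T x Z hZ s τ h
  have e : gA x Z = (some (x, true) :: fw Z) ++ Z.map fun z => some (z, false) := rfl
  rw [e, tr_append] at h
  obtain ⟨ρ, h1, h2⟩ := h
  exact phase2 x s Z hZ Z ρ τ hZ le_rfl (phase1 x _ Z ρ h1) h2

end Pool.Agent.Helper18.DR
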